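import Pool.Agent.helper76.UF.Spec

set_option autoImplicit false

namespace Pool.Agent.UF

open Finset Polynomial NumberField

/-- A sum over `range (q p)` as a double sum. -/
theorem LIN_sum {R : Type} [AddCommMonoid R] (q : ℕ) (f : ℕ → R) (p : ℕ) :
    ∑ i ∈ range (q * p), f i = ∑ j ∈ range p, ∑ k ∈ range q, f (q * j + k) := by
  induction p with
  | zero => simp
  | succ p ih => rw [Nat.mul_succ, Finset.sum_range_add, ih, Finset.sum_range_succ]

/-- The elements of `Z[w]`, `w^p = -1`. -/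
theorem LIN_adj {R : Type} [CommRing R] (w : R) (p : ℕ) (hp : 1 ≤ p) (hw : w ^ p = -1) (y : R)
    (hy : y ∈ Algebra.adjoin ℤ {w}) : ∃ a : ℕ → ℤ, y = ∑ j ∈ range p, (a j : R) * w ^ j := by
  rw [Algebra.adjoin_singleton_eq_range_aeval] at hy
  obtain ⟨f, rfl⟩ := hy
  have hm : (X ^ p + C (1 : ℤ)).Monic := monic_X_pow_add_C (1 : ℤ) (by omega)
  have hr : aeval w (X ^ p + C (1 : ℤ)) = 0 := by
    simp [hw]
  have hd : (X ^ p + C (1 : ℤ)).natDegree = p := natDegree_X_pow_add_C
  have hlt : (f %ₘ (X ^ p + C (1 : ℤ))).natDegree < p := by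
    have h1 := natDegree_modByMonic_lt f hm (by
      intro h
      rw [h, natDegree_one] at hd
      omega)
    omega
  refine ⟨fun j => (f %ₘ (X ^ p + C (1 : ℤ))).coeff j, ?_⟩
  have h2 : aeval w (f %ₘ (X ^ p + C (1 : ℤ))) = aeval w f := aeval_modByMonic_eq_self_of_root hr
  change aeval w f = _
  rw [← h2, aeval_eq_sum_range' hlt]
  refine Finset.sum_congr rfl fun j _ => ?_
  rw [zsmul_eq_mul]

theorem LIN : LIN_stmt := by
  intro m g R _ x hg hgm hB H hH hdeg hev
  set q : ℕ := 2 ^ (m + 1 - g) with hq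
  set p : ℕ := 2 ^ (g - 1) with hp
  have hqp : q * p = 2 ^ m := by
    rw [hq, hp, ← pow_add]
    congr 1
    omega
  have hp1 : 1 ≤ p := Nat.one_le_two_pow
  have hq1 : 1 ≤ q := Nat.one_le_two_pow
  have hw : (x ^ q) ^ p = -1 := by
    rw [← pow_mul, hqp]
    exact hB.1
  have h1 : ∀ k, ∃ a : ℕ → ℤ, H.coeff k = ∑ j ∈ range p, (a j : R) * (x ^ q) ^ j :=
    fun k => LIN_adj (x ^ q) p hp1 hw _ (hH k)
  choose a ha using h1
  have h2 : ∑ i ∈ range (2 ^ m), ((a (i % q) (i / q) : ℤ) : R) * x ^ i = 0 := by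
    rw [← hqp, LIN_sum, ← hev, eval_eq_sum_range' hdeg, Finset.sum_comm]
    refine Finset.sum_congr rfl fun k hk => ?_
    rw [mem_range] at hk
    rw [ha k, Finset.sum_mul]
    refine Finset.sum_congr rfl fun j _ => ?_
    have e1 : (q * j + k) % q = k := by
      rw [Nat.mul_add_mod, Nat.mod_eq_of_lt hk]
    have e2 : (q * j + k) / q = j := by
      rw [Nat.mul_add_div (by omega), Nat.div_eq_of_lt hk, add_zero]
    rw [e1, e2, pow_add, pow_mul]
    ring
  have h3 := hB.2 (fun i => a (i % q) (i / q)) h2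
  ext k
  rw [coeff_zero]
  rcases lt_or_ge k q with hk | hk
  · rw [ha k]
    refine Finset.sum_eq_zero fun j hj => ?_
    rw [mem_range] at hj
    have e1 : (q * j + k) % q = k := by
      rw [Nat.mul_add_mod, Nat.mod_eq_of_lt hk]
    have e2 : (q * j + k) / q = j := by
      rw [Nat.mul_add_div (by omega), Nat.div_eq_of_lt hk, add_zero]
    have h4 := h3 (q * j + k) (by
      rw [← hqp]
      calc q * j + k < q * j + q := by omega
        _ = q * (j + 1) := by ring
        _ ≤ q * p := Nat.mul_le_mul_left _ hj)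
    simp only [e1, e2] at h4
    rw [h4]
    simp
  · exact coeff_eq_zero_of_natDegree_lt (by omega)

end Pool.Agent.UF
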