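import Pool.Agent.helper76.UF.Spec

set_option autoImplicit false

namespace Pool.Agent.UF

open Finset Polynomial NumberField

theorem POL_deg {R : Type} [CommRing R] (a : ℕ) (y : ℕ → R) (T : Multiset (ℕ × ℕ × ℕ)) :
    ((T.map (fun p : ℕ × ℕ × ℕ => (C (a : R) - C (y p.1) * X ^ p.2.2) *
      (C (a : R) * X ^ p.2.2 - C (y p.2.1)))).prod).natDegree ≤ 2 * (T.map (fun p => p.2.2)).sum := by
  induction T using Multiset.induction_on with
  | empty => simp
  | cons p T ih =>
    rw [Multiset.map_cons, Multiset.prod_cons, Multiset.map_cons, Multiset.sum_cons]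
    have h1 : (C (a : R) - C (y p.1) * X ^ p.2.2).natDegree ≤ p.2.2 := by
      refine (natDegree_sub_le _ _).trans (max_le ?_ (natDegree_C_mul_X_pow_le _ _))
      rw [natDegree_C]
      exact Nat.zero_le _
    have h2 : (C (a : R) * X ^ p.2.2 - C (y p.2.1)).natDegree ≤ p.2.2 := by
      refine (natDegree_sub_le _ _).trans (max_le (natDegree_C_mul_X_pow_le _ _) ?_)
      rw [natDegree_C]
      exact Nat.zero_le _
    have h3 := natDegree_mul_le_of_le (natDegree_mul_le_of_le h1 h2) ih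
    omega

theorem POL (h : LIN_stmt) : POL_stmt := by
  intro m g a R _ x hg hgm hB q L k hq hL S c A A' B B' hBB T hk heq
  set W : Subalgebra ℤ R := Algebra.adjoin ℤ {x ^ q} with hW
  have hxq : ∀ n : ℕ, x ^ (q * n) ∈ W := by
    intro n
    rw [pow_mul]
    exact pow_mem (Algebra.self_mem_adjoin_singleton ℤ _) n
  have hr : ∀ y ∈ W, y ∈ Set.range (algebraMap W R) := fun y hy => ⟨⟨y, hy⟩, rfl⟩
  set F : R[X] := (∑ s ∈ S, C ((c s : R) * x ^ (q * A s)) * X ^ (B s)) *
        (∑ s ∈ S, C ((c s : R) * x ^ (q * A' s)) * X ^ (B' s)) with hF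
  set G : R[X] := X ^ k * (T.map (fun p => (C (a : R) - C (x ^ (q * p.1)) * X ^ p.2.2) *
          (C (a : R) * X ^ p.2.2 - C (x ^ (q * p.2.1))))).prod with hG
  have hs1 : ∀ (A B : ℕ → ℕ), (∑ s ∈ S, C ((c s : R) * x ^ (q * A s)) * X ^ (B s)) ∈
      lifts (algebraMap W R) := by
    intro A B
    refine sum_mem fun s _ => mul_mem (C'_mem_lifts (hr _ ?_)) (X_pow_mem_lifts _ _)
    exact mul_mem (intCast_mem W (c s)) (hxq _)
  have hFl : F ∈ lifts (algebraMap W R) := mul_mem (hs1 A B) (hs1 A' B')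
  have hGl : G ∈ lifts (algebraMap W R) := by
    refine mul_mem (X_pow_mem_lifts _ _) (multiset_prod_mem _ ?_)
    intro y hy
    obtain ⟨p, -, rfl⟩ := Multiset.mem_map.1 hy
    have e1 : (C (a : R)) ∈ liftsRing (algebraMap W R) :=
      C'_mem_lifts (hr _ (natCast_mem W a))
    have e2 : ∀ n, (C (x ^ (q * n))) ∈ liftsRing (algebraMap W R) := fun n =>
      C'_mem_lifts (hr _ (hxq n))
    have e3 : ∀ n, (X ^ n : R[X]) ∈ liftsRing (algebraMap W R) := fun n => X_pow_mem_lifts _ _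
    have e4 : (C (a : R) - C (x ^ (q * p.1)) * X ^ p.2.2) *
          (C (a : R) * X ^ p.2.2 - C (x ^ (q * p.2.1))) ∈ liftsRing (algebraMap W R) :=
      mul_mem (sub_mem e1 (mul_mem (e2 _) (e3 _))) (sub_mem (mul_mem e1 (e3 _)) (e2 _))
    exact e4
  have hcoef : ∀ j, (F - G).coeff j ∈ W := by
    intro j
    obtain ⟨y, hy⟩ := (lifts_iff_coeff_lifts F).1 hFl j
    obtain ⟨z, hz⟩ := (lifts_iff_coeff_lifts G).1 hGl j
    rw [coeff_sub, ← hy, ← hz]
    exact sub_mem y.2 z.2
  have hsd : ∀ (A B : ℕ → ℕ), (∀ s ∈ S, B s ≤ 2 * L) →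
      (∑ s ∈ S, C ((c s : R) * x ^ (q * A s)) * X ^ (B s)).natDegree ≤ 2 * L := by
    intro A B hB2
    exact natDegree_sum_le_of_forall_le _ _ fun s hs =>
      (natDegree_C_mul_X_pow_le _ _).trans (hB2 s hs)
  have hFd : F.natDegree ≤ 4 * L := by
    have h1 : F.natDegree ≤ 2 * L + 2 * L :=
      natDegree_mul_le_of_le (hsd A B fun s hs => (hBB s hs).1)
        (hsd A' B' fun s hs => (hBB s hs).2)
    omega
  have hGd : G.natDegree ≤ 4 * L := by
    have h1 : G.natDegree ≤ k + 2 * (T.map (fun p => p.2.2)).sum :=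
      natDegree_mul_le_of_le (natDegree_X_pow_le (R := R) k)
        (POL_deg a (fun n => x ^ (q * n)) T)
    exact h1.trans hk
  have hdeg : (F - G).natDegree < q :=
    lt_of_le_of_lt ((natDegree_sub_le _ _).trans (max_le hFd hGd)) hL
  have hev : (F - G).eval x = 0 := by
    rw [eval_sub, sub_eq_zero, hF, hG]
    rw [eval_mul, eval_mul, eval_finsetSum, eval_finsetSum, eval_multiset_prod, Multiset.map_map]
    simp only [eval_mul, eval_C, eval_pow, eval_X, Function.comp_def, eval_sub]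
    exact heq
  subst hq
  have hfin := h m g R x hg hgm hB (F - G) hcoef hdeg hev
  exact sub_eq_zero.1 hfin

end Pool.Agent.UF
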